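import Pool.Agent.Lib.MP_b2f0a7_al.Brown

/-! In characteristic 3 the restricted enveloping algebra of the 10-dimensional Brown algebra
br(2) has minimal PIM dimension strictly between 81 and 243, so that `m ≠ q`. -/

namespace Pool.Agent.Results.MP_b2f0a7_al.BrownAlgebra

open Pool.Agent.Lib.MP_b2f0a7_al

universe u

attribute [local instance 100] LieRing.ofAssociativeRing

theorem aux (D : Set ℕ) (hl : ∀ d ∈ D, 81 < d) (hu : ∃ d ∈ D, d ≤ 162) :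
    ∃ m q : ℕ, IsLeast D m ∧ IsGreatest {n : ℕ | (∃ e : ℕ, n = 3 ^ e) ∧ ∀ d ∈ D, n ∣ d} q ∧
      m ≠ q := by
  classical
  obtain ⟨d0, hd0, hd⟩ := hu
  have hne : ∃ d, d ∈ D := ⟨d0, hd0⟩
  have hm : IsLeast D (Nat.find hne) := ⟨Nat.find_spec hne, fun d hd => Nat.find_min' hne hd⟩
  have hb : BddAbove {n : ℕ | (∃ e : ℕ, n = 3 ^ e) ∧ ∀ d ∈ D, n ∣ d} :=
    ⟨d0, fun n hn => Nat.le_of_dvd (by have := hl d0 hd0; omega) (hn.2 d0 hd0)⟩
  have hq := Nat.sSup_mem (s := {n : ℕ | (∃ e : ℕ, n = 3 ^ e) ∧ ∀ d ∈ D, n ∣ d})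
    ⟨1, ⟨0, rfl⟩, fun d _ => one_dvd d⟩ hb
  refine ⟨Nat.find hne, _, hm, ⟨hq, fun n hn => le_csSup hb hn⟩, fun h => ?_⟩
  obtain ⟨e, he⟩ := hq.1
  have h1 := hl _ hm.1
  have h2 := hm.2 hd0
  rw [h, he] at h1 h2
  have h3 : 4 < e := (Nat.pow_lt_pow_iff_right (by norm_num : 1 < 3)).1 h1
  have h4 : 3 ^ 5 ≤ 3 ^ e := Nat.pow_le_pow_right (by norm_num) h3
  omega

theorem result (k : Type u) [Field k] [IsAlgClosed k] [CharP k 3] :
    ∃ (g : Type u) (_ : LieRing g) (_ : LieAlgebra k g) (_ : FiniteDimensional k g)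
      (pm : g → g) (χ : Module.Dual k g) (m q : ℕ),
      IsPMap k 3 pm ∧
      IsLeast (pimDims k (RedEnv k 3 pm χ)) m ∧
      IsGreatest {n : ℕ | (∃ e : ℕ, n = 3 ^ e) ∧ ∀ d ∈ pimDims k (RedEnv k 3 pm χ), n ∣ d} q ∧
      m ≠ q := by
  obtain ⟨m, q, h⟩ := aux _ (lower (pres k)) (upper (pres k))
  exact ⟨gS k, inferInstance, inferInstance,
    inferInstanceAs (FiniteDimensional k (gS k).toSubmodule), pmS k, 0, m, q, pmS_isPMap k, h⟩

end Pool.Agent.Results.MP_b2f0a7_al.BrownAlgebra
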